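import Pool.Agent.Results.MP_36bee3_al.NotR0Closed

set_option autoImplicit false

/-!
# Subdirect products and Fischer classes: a sharp theorem

Let `X` be a Fischer class of finite soluble groups and let `G` be a finite soluble group with
normal subgroups `M₁`, `M₂` such that `M₁ ∩ M₂ = 1` and `G / M₁`, `G / M₂` belong to `X`.

* If `G / M₁M₂` is metanilpotent, then `G` belongs to `X`.
* For all distinct primes `q, r ≥ 5` there are a Fischer class `X` of `{2,3,q,r}`-groups of
  nilpotent length at most four and such a group `G` with `G / M₁M₂ ≅ S₄` (of nilpotent length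
  three) which does not belong to `X`.
-/

namespace Pool.Agent.Results.MP_36bee3_al.SharpAmalgam

open Subgroup
open Pool.Agent.Results.MP_36bee3_al.NotR0Closed
open scoped commutatorElement

/-- `LengthLE k S`: the subgroup `S` has nilpotent length at most `k`. A group has nilpotent
length `0` if it is trivial, and nilpotent length at most `k + 1` if some term of its lower
central series has nilpotent length at most `k`. -/
def LengthLE {G : Type} [Group G] : ℕ → Subgroup G → Prop
  | 0, S => S = ⊥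
  | k + 1, S => ∃ n : ℕ, LengthLE k (S.lowerCentralSeries n)

/-! ### The positive part -/

section Positive

variable {X : (G : Type) → [Group G] → Prop}

/-- one application of `F`-closure inside a fixed finite soluble group `H` -/
lemma fstep (hX : IsFischerClass X) {H : Type} [Group H] [Finite H] [Group.IsSolvable H]
    (U V E : Subgroup H) (hUV : U ≤ V) (hEU : E ≤ U) (hE : V ≤ Subgroup.normalizer (E : Set H))
    (n : ℕ) (hn : U.lowerCentralSeries n ≤ E) (hV : X V) : X U := by
  have hEV : (E.subgroupOf V).Normal := normal_subgroupOf_of_le_normalizer hE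
  have h1 : E.subgroupOf V ≤ (U.subgroupOf V).normalCore := by
    rw [Subgroup.normal_le_normalCore]
    exact Subgroup.comap_mono hEU
  have h2 : (U.subgroupOf V).lowerCentralSeries n ≤ E.subgroupOf V := by
    rw [← map_subtype_le_map_subtype, map_lowerCentralSeries, subgroupOf_map_subtype,
      subgroupOf_map_subtype, inf_eq_left.2 hUV, inf_eq_left.2 (hEU.trans hUV)]
    exact hn
  have h3 : Group.IsNilpotent
      ((U.subgroupOf V) ⧸ ((U.subgroupOf V).normalCore.subgroupOf (U.subgroupOf V))) := by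
    rw [Subgroup.nilpotent_iff_lowerCentralSeries]
    refine ⟨n, ?_⟩
    rw [← map_top_of_surjective _ (QuotientGroup.mk'_surjective
        ((U.subgroupOf V).normalCore.subgroupOf (U.subgroupOf V))), ← map_lowerCentralSeries,
      Subgroup.map_eq_bot_iff, QuotientGroup.ker_mk', ← map_subtype_le_map_subtype,
      top_subtype_lowerCentralSeries, subgroupOf_map_subtype]
    exact le_inf (h2.trans h1) ((h2.trans h1).trans (normalCore_le _))
  have h4 := hX.f (↥V) (U.subgroupOf V) hV h3
  exact hX.isClass.iso _ _ (subgroupOfEquivOfLe hUV) h4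

/-- direct products -/
lemma x_prod (hX : IsFischerClass X) (A B : Type) [Group A] [Group B] (hA : X A) (hB : X B) :
    X (A × B) := by
  have := hX.isClass.finite A hA
  have := hX.isClass.finite B hB
  have := hX.isClass.soluble A hA
  have := hX.isClass.soluble B hB
  have e1 : (MonoidHom.inl A B).range.Normal := by
    have : (MonoidHom.inl A B).range = (MonoidHom.snd A B).ker := by
      ext ⟨a, b⟩
      rw [MonoidHom.mem_ker, MonoidHom.mem_range]
      constructor
      · rintro ⟨x, hx⟩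
        exact (congrArg Prod.snd hx).symm
      · intro h
        exact ⟨a, Prod.ext rfl h.symm⟩
    rw [this]; infer_instance
  have e2 : (MonoidHom.inr A B).range.Normal := by
    have : (MonoidHom.inr A B).range = (MonoidHom.fst A B).ker := by
      ext ⟨a, b⟩
      rw [MonoidHom.mem_ker, MonoidHom.mem_range]
      constructor
      · rintro ⟨x, hx⟩
        exact (congrArg Prod.fst hx).symm
      · intro h
        exact ⟨b, Prod.ext h.symm rfl⟩
    rw [this]; infer_instance
  refine hX.n0 (A × B) 2 ![(MonoidHom.inl A B).range, (MonoidHom.inr A B).range] ?_ ?_ ?_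
  · intro i
    fin_cases i
    · exact Subgroup.Normal.isSubnormal e1
    · exact Subgroup.Normal.isSubnormal e2
  · intro i
    fin_cases i
    · exact hX.isClass.iso _ _ (MonoidHom.ofInjective (f := MonoidHom.inl A B)
        (fun a b h => congrArg Prod.fst h)) hA
    · exact hX.isClass.iso _ _ (MonoidHom.ofInjective (f := MonoidHom.inr A B)
        (fun a b h => congrArg Prod.snd h)) hB
  · rw [eq_top_iff]
    rintro ⟨a, b⟩ -
    have h1 : ((a, 1) : A × B) ∈ ⨆ i, (![(MonoidHom.inl A B).range, (MonoidHom.inr A B).range] :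
        Fin 2 → Subgroup (A × B)) i :=
      (le_iSup (![(MonoidHom.inl A B).range, (MonoidHom.inr A B).range] :
        Fin 2 → Subgroup (A × B)) 0) ⟨a, rfl⟩
    have h2 : ((1, b) : A × B) ∈ ⨆ i, (![(MonoidHom.inl A B).range, (MonoidHom.inr A B).range] :
        Fin 2 → Subgroup (A × B)) i :=
      (le_iSup (![(MonoidHom.inl A B).range, (MonoidHom.inr A B).range] :
        Fin 2 → Subgroup (A × B)) 1) ⟨b, rfl⟩
    have h3 := mul_mem h1 h2
    simpa using h3

variable {G : Type} [Group G]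

/-- the pairs of elements which are congruent modulo the normal subgroup `K` -/
def Con (K : Subgroup G) [K.Normal] : Subgroup (G × G) where
  carrier := {p | p.1 * p.2⁻¹ ∈ K}
  mul_mem' := by
    rintro ⟨a, b⟩ ⟨c, d⟩ h1 h2
    have h1' : a * b⁻¹ ∈ K := h1
    have h2' : c * d⁻¹ ∈ K := h2
    show a * c * (b * d)⁻¹ ∈ K
    have : a * c * (b * d)⁻¹ = (a * (c * d⁻¹) * a⁻¹) * (a * b⁻¹) := by group
    rw [this]
    exact mul_mem (Normal.conj_mem inferInstance _ h2' a) h1'
  one_mem' := by
    show (1 : G) * 1⁻¹ ∈ K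
    simp
  inv_mem' := by
    rintro ⟨a, b⟩ h1
    have h1' : a * b⁻¹ ∈ K := h1
    show a⁻¹ * b⁻¹⁻¹ ∈ K
    have : a⁻¹ * b⁻¹⁻¹ = b⁻¹ * (a * b⁻¹)⁻¹ * b⁻¹⁻¹ := by group
    rw [this]
    exact Normal.conj_mem inferInstance _ (inv_mem h1') b⁻¹

lemma mem_Con (K : Subgroup G) [K.Normal] (a b : G) : (a, b) ∈ Con K ↔ a * b⁻¹ ∈ K := Iff.rfl

lemma Con_mono {K L : Subgroup G} [K.Normal] [L.Normal] (h : K ≤ L) : Con K ≤ Con L :=
  fun _ hp => h hp

/-- If `[N, L] ≤ K` then `Con L` normalises `Con K ∩ (N × N)`. -/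
lemma Con_normalizes (N K L : Subgroup G) [N.Normal] [K.Normal] [L.Normal] (hL : ⁅N, L⁆ ≤ K) :
    Con L ≤ Subgroup.normalizer ((Con K ⊓ N.prod N : Subgroup (G × G)) : Set (G × G)) := by
  have key : ∀ p ∈ Con L, ∀ s ∈ Con K ⊓ N.prod N, p * s * p⁻¹ ∈ Con K ⊓ N.prod N := by
    rintro ⟨a, b⟩ hp ⟨x, y⟩ ⟨h1, h2⟩
    have hp' : a * b⁻¹ ∈ L := hp
    have h1' : x * y⁻¹ ∈ K := h1
    obtain ⟨hx, hy⟩ := h2
    have hx' : x ∈ N := hx
    have hy' : y ∈ N := hy
    refine ⟨?_, ?_⟩
    · show (a * x * a⁻¹) * (b * y * b⁻¹)⁻¹ ∈ K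
      have hyb : b * y * b⁻¹ ∈ N := Normal.conj_mem inferInstance _ hy' b
      have h3 : ⁅a * b⁻¹, b * y * b⁻¹⁆ ∈ K := by
        apply hL
        rw [commutator_comm]
        exact commutator_mem_commutator hp' hyb
      have : (a * x * a⁻¹) * (b * y * b⁻¹)⁻¹ =
          (a * (x * y⁻¹) * a⁻¹) * ⁅a * b⁻¹, b * y * b⁻¹⁆ := by
        rw [commutatorElement_def]; group
      rw [this]
      exact mul_mem (Normal.conj_mem inferInstance _ h1' a) h3
    · exact ⟨Normal.conj_mem inferInstance _ hx' a, Normal.conj_mem inferInstance _ hy' b⟩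
  intro p hp
  rw [Subgroup.mem_normalizer_iff]
  intro s
  refine ⟨key p hp s, fun h => ?_⟩
  have := key p⁻¹ (inv_mem hp) _ h
  simpa [mul_assoc] using this

lemma lcs_prod_le (N : Subgroup G) (n : ℕ) (hn : (⊤ : Subgroup G).lowerCentralSeries n ≤ N) :
    (⊤ : Subgroup (G × G)).lowerCentralSeries n ≤ N.prod N := by
  have h1 := map_lowerCentralSeries (⊤ : Subgroup (G × G)) (MonoidHom.fst G G) n
  have h2 := map_lowerCentralSeries (⊤ : Subgroup (G × G)) (MonoidHom.snd G G) n
  intro p hp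
  rw [Subgroup.mem_prod]
  refine ⟨hn ?_, hn ?_⟩
  · have : (MonoidHom.fst G G) p ∈ ((⊤ : Subgroup (G × G)).lowerCentralSeries n).map
        (MonoidHom.fst G G) := ⟨p, hp, rfl⟩
    rw [h1] at this
    exact lowerCentralSeries_mono n le_top this
  · have : (MonoidHom.snd G G) p ∈ ((⊤ : Subgroup (G × G)).lowerCentralSeries n).map
        (MonoidHom.snd G G) := ⟨p, hp, rfl⟩
    rw [h2] at this
    exact lowerCentralSeries_mono n le_top this

lemma lcs_le_self (S : Subgroup G) (n : ℕ) : S.lowerCentralSeries n ≤ S := by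
  have := S.lowerCentralSeries_antitone (Nat.zero_le n)
  simpa using this

/-- A subdirect product of two `X`-groups with metanilpotent amalgamated quotient belongs to the
Fischer class `X`. -/
theorem positive_aux (hX : IsFischerClass X) [Finite G] [Group.IsSolvable G]
    (M₁ M₂ : Subgroup G) [M₁.Normal] [M₂.Normal] (hM : M₁ ⊓ M₂ = ⊥)
    (h1 : X (G ⧸ M₁)) (h2 : X (G ⧸ M₂))
    (N : Subgroup G) [N.Normal] (n m : ℕ) (hn : (⊤ : Subgroup G).lowerCentralSeries n ≤ N)
    (hm : N.lowerCentralSeries m ≤ M₁ ⊔ M₂) (hMN : M₁ ⊔ M₂ ≤ N) : X G := by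
  -- the projection `G × G → G / M₁ × G / M₂`
  set π : G × G →* (G ⧸ M₁) × (G ⧸ M₂) :=
    MonoidHom.prodMap (QuotientGroup.mk' M₁) (QuotientGroup.mk' M₂) with hπ
  have hπs : Function.Surjective π := by
    rintro ⟨a, b⟩
    obtain ⟨a, rfl⟩ := QuotientGroup.mk'_surjective M₁ a
    obtain ⟨b, rfl⟩ := QuotientGroup.mk'_surjective M₂ b
    exact ⟨(a, b), rfl⟩
  have hH : X ((G ⧸ M₁) × (G ⧸ M₂)) := x_prod hX _ _ h1 h2
  have hfin : Finite ((G ⧸ M₁) × (G ⧸ M₂)) := inferInstance
  have hsol : Group.IsSolvable ((G ⧸ M₁) × (G ⧸ M₂)) := hX.isClass.soluble _ hH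
  -- the chain
  let K : ℕ → Subgroup G := fun i => N.lowerCentralSeries i ⊔ (M₁ ⊔ M₂)
  have hKn : ∀ i, (K i).Normal := fun i => by
    show (N.lowerCentralSeries i ⊔ (M₁ ⊔ M₂)).Normal
    infer_instance
  have hKN : ∀ i, K i ≤ N := fun i => sup_le (lcs_le_self N i) hMN
  have hcomm : ∀ i, ⁅N, K i⁆ ≤ K (i + 1) := by
    intro i
    show ⁅N, N.lowerCentralSeries i ⊔ (M₁ ⊔ M₂)⁆ ≤ N.lowerCentralSeries (i + 1) ⊔ (M₁ ⊔ M₂)
    rw [comm_sup_eq, commutator_comm N (N.lowerCentralSeries i)]
    exact sup_le_sup le_rfl (commutator_le_right _ _)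
  have hlcs : ∀ i, ((Con (K i)).map π).lowerCentralSeries n ≤
      (Con (K i) ⊓ N.prod N).map π := by
    intro i
    rw [← map_lowerCentralSeries]
    refine map_mono (le_inf (lcs_le_self _ n) ?_)
    exact (lowerCentralSeries_mono n le_top).trans (lcs_prod_le N n hn)
  have hchain : ∀ i, X ((Con (K i)).map π) := by
    intro i
    induction i with
    | zero =>
      have hV : X (⊤ : Subgroup ((G ⧸ M₁) × (G ⧸ M₂))) :=
        hX.isClass.iso _ _ Subgroup.topEquiv.symm hH
      refine fstep hX _ ⊤ ((N.prod N).map π) le_top ?_ ?_ n ?_ hV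
      · apply map_mono
        rintro ⟨x, y⟩ ⟨hx, hy⟩
        have hx' : x ∈ N := hx
        have hy' : y ∈ N := hy
        show x * y⁻¹ ∈ K 0
        have : N ≤ K 0 := by
          show N ≤ N.lowerCentralSeries 0 ⊔ (M₁ ⊔ M₂)
          exact le_trans (by simp) le_sup_left
        exact this (mul_mem hx' (inv_mem hy'))
      · have : ((N.prod N).map π).Normal := Normal.map inferInstance _ hπs
        rw [normalizer_eq_top_iff.2 this]
      · exact (hlcs 0).trans (map_mono inf_le_right)
    | succ i ih =>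
      refine fstep hX _ ((Con (K i)).map π) ((Con (K (i + 1)) ⊓ N.prod N).map π) ?_ ?_ ?_ n
        (hlcs (i + 1)) ih
      · apply map_mono
        apply Con_mono
        exact sup_le_sup (N.lowerCentralSeries_antitone (Nat.le_succ i)) le_rfl
      · exact map_mono inf_le_left
      · exact (map_mono (Con_normalizes N (K (i + 1)) (K i) (hcomm i))).trans
          (le_normalizer_map _)
  -- the last member of the chain is isomorphic to `G`
  have hKm : K m = M₁ ⊔ M₂ := sup_eq_right.2 hm
  let φ : G →* (G ⧸ M₁) × (G ⧸ M₂) := (QuotientGroup.mk' M₁).prod (QuotientGroup.mk' M₂)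
  have hφ : Function.Injective φ := by
    rw [injective_iff_map_eq_one]
    intro g hg
    have e1 : g ∈ M₁ := (QuotientGroup.eq_one_iff g).1 (congrArg Prod.fst hg)
    have e2 : g ∈ M₂ := (QuotientGroup.eq_one_iff g).1 (congrArg Prod.snd hg)
    have : g ∈ M₁ ⊓ M₂ := ⟨e1, e2⟩
    rw [hM] at this
    exact this
  have hrange : (Con (K m)).map π = φ.range := by
    apply le_antisymm
    · rintro _ ⟨⟨x, y⟩, hxy, rfl⟩
      have hxy' : x * y⁻¹ ∈ K m := hxy
      rw [hKm] at hxy'
      obtain ⟨a, ha, b, hb, hab⟩ : ∃ a ∈ M₁, ∃ b ∈ M₂, a * b = x * y⁻¹ := by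
        have : x * y⁻¹ ∈ ((M₁ ⊔ M₂ : Subgroup G) : Set G) := hxy'
        rw [mul_normal] at this
        exact this
      refine ⟨b * y, ?_⟩
      apply Prod.ext
      · show ((b * y : G) : G ⧸ M₁) = (x : G ⧸ M₁)
        rw [QuotientGroup.eq]
        have hx : x = a * b * y := by rw [hab]; group
        have : (b * y)⁻¹ * x = (b * y)⁻¹ * a * (b * y)⁻¹⁻¹ := by rw [hx]; group
        rw [this]
        exact Normal.conj_mem inferInstance _ ha _
      · show ((b * y : G) : G ⧸ M₂) = (y : G ⧸ M₂)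
        rw [QuotientGroup.eq]
        have : (b * y)⁻¹ * y = y⁻¹ * b⁻¹ * y⁻¹⁻¹ := by group
        rw [this]
        exact Normal.conj_mem inferInstance _ (inv_mem hb) _
    · rintro _ ⟨g, rfl⟩
      refine ⟨(g, g), ?_, rfl⟩
      show g * g⁻¹ ∈ K m
      rw [mul_inv_cancel]
      exact one_mem _
  have h5 := hchain m
  rw [hrange] at h5
  exact hX.isClass.iso _ _ (MonoidHom.ofInjective hφ).symm h5

theorem positive (hX : IsFischerClass X) (G : Type) [Group G] [Finite G] [Group.IsSolvable G]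
    (M₁ M₂ : Subgroup G) [M₁.Normal] [M₂.Normal] (hM : M₁ ⊓ M₂ = ⊥)
    (h1 : X (G ⧸ M₁)) (h2 : X (G ⧸ M₂))
    (h3 : ∃ N : Subgroup (G ⧸ (M₁ ⊔ M₂)), ∃ _ : N.Normal,
      Group.IsNilpotent N ∧ Group.IsNilpotent ((G ⧸ (M₁ ⊔ M₂)) ⧸ N)) : X G := by
  obtain ⟨N, hN, hn1, hn2⟩ := h3
  obtain ⟨m, hm⟩ := Subgroup.nilpotent_iff_lowerCentralSeries.1 hn1
  obtain ⟨n, hn⟩ := Subgroup.nilpotent_iff_lowerCentralSeries.1 hn2
  have hle : M₁ ⊔ M₂ ≤ N.comap (QuotientGroup.mk' (M₁ ⊔ M₂)) := by
    calc M₁ ⊔ M₂ = (QuotientGroup.mk' (M₁ ⊔ M₂)).ker := (QuotientGroup.ker_mk' _).symm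
      _ ≤ _ := MonoidHom.ker_le_comap _ _
  refine positive_aux hX M₁ M₂ hM h1 h2 (N.comap (QuotientGroup.mk' (M₁ ⊔ M₂))) n m ?_ ?_ hle
  · -- the quotient by `N` is nilpotent
    rw [← map_top_of_surjective _ (QuotientGroup.mk'_surjective N), ← map_lowerCentralSeries,
      Subgroup.map_eq_bot_iff, QuotientGroup.ker_mk'] at hn
    rw [← map_le_iff_le_comap, map_lowerCentralSeries]
    exact (lowerCentralSeries_mono n le_top).trans hn
  · have h4 : N.lowerCentralSeries m = ⊥ := by
      rw [← top_subtype_lowerCentralSeries, hm, Subgroup.map_bot]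
    have h5 : ((N.comap (QuotientGroup.mk' (M₁ ⊔ M₂))).lowerCentralSeries m).map
        (QuotientGroup.mk' (M₁ ⊔ M₂)) = ⊥ := by
      rw [map_lowerCentralSeries, eq_bot_iff, ← h4]
      exact lowerCentralSeries_mono m (map_comap_le _ _)
    rw [Subgroup.map_eq_bot_iff, QuotientGroup.ker_mk'] at h5
    exact h5

end Positive

/-! ### Groups of bounded nilpotent length -/

section Length

variable {G : Type} [Group G]

lemma LengthLE.mono {k : ℕ} : ∀ {S T : Subgroup G}, S ≤ T → LengthLE k T → LengthLE k S := by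
  induction k with
  | zero => intro S T h1 h2; exact le_bot_iff.1 (h1.trans (le_of_eq h2))
  | succ k ih =>
    rintro S T h1 ⟨n, h2⟩
    exact ⟨n, ih (lowerCentralSeries_mono n h1) h2⟩

lemma LengthLE.map {k : ℕ} {H : Type} [Group H] (f : G →* H) :
    ∀ {S : Subgroup G}, LengthLE k S → LengthLE k (S.map f) := by
  induction k with
  | zero => intro S h; show S.map f = ⊥; rw [show S = ⊥ from h, Subgroup.map_bot]
  | succ k ih =>
    rintro S ⟨n, h⟩
    refine ⟨n, ?_⟩
    rw [← map_lowerCentralSeries]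
    exact ih h

lemma LengthLE.of_map {k : ℕ} {H : Type} [Group H] (f : G →* H) (hf : Function.Injective f) :
    ∀ {S : Subgroup G}, LengthLE k (S.map f) → LengthLE k S := by
  induction k with
  | zero =>
    intro S h
    exact (Subgroup.map_eq_bot_iff_of_injective _ hf).1 h
  | succ k ih =>
    rintro S ⟨n, h⟩
    refine ⟨n, ?_⟩
    rw [← map_lowerCentralSeries] at h
    exact ih h

lemma LengthLE.sup {k : ℕ} : ∀ {N M : Subgroup G} [N.Normal] [M.Normal],
    LengthLE k N → LengthLE k M → LengthLE k (N ⊔ M) := by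
  induction k with
  | zero =>
    intro N M _ _ h1 h2
    show N ⊔ M = ⊥
    rw [show N = ⊥ from h1, show M = ⊥ from h2, sup_bot_eq]
  | succ k ih =>
    rintro N M _ _ ⟨n, h1⟩ ⟨m, h2⟩
    exact ⟨n + m, (ih h1 h2).mono (fitting N M _ n m le_sup_left le_sup_right)⟩

/-- The class of finite soluble `π`-groups of nilpotent length at most `k`. -/
def Bdd (k : ℕ) (π : ℕ → Prop) (G : Type) [Group G] : Prop :=
  Finite G ∧ Group.IsSolvable G ∧ LengthLE k (⊤ : Subgroup G) ∧
    ∀ p : ℕ, p.Prime → p ∣ Nat.card G → π p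

variable (k : ℕ) (π : ℕ → Prop)

lemma bdd_of_injective {G H : Type} [Group G] [Group H] (f : G →* H)
    (hf : Function.Injective f) (h : Bdd k π H) : Bdd k π G := by
  obtain ⟨h1, h2, h3, h4⟩ := h
  refine ⟨Finite.of_injective f hf, Group.isSolvable_of_isSolvable_injective hf,
    LengthLE.of_map f hf (h3.mono le_top), fun p hp hd => h4 p hp ?_⟩
  exact hd.trans (Subgroup.card_dvd_of_injective f hf)

lemma bdd_n0 : N0Closed (Bdd k π) := by
  refine n0_of_binary ?_ ?_ ?_
  · intro G _ _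
    refine ⟨inferInstance, inferInstance, ?_, ?_⟩
    · have h : LengthLE k (⊥ : Subgroup G) := by
        induction k with
        | zero => rfl
        | succ k ih => exact ⟨0, by simpa using ih⟩
      rwa [show (⊤ : Subgroup G) = ⊥ from Subsingleton.elim _ _]
    · intro p hp hd
      rw [Nat.card_of_subsingleton (1 : G)] at hd
      exact absurd (Nat.dvd_one.1 hd) hp.one_lt.ne'
  · intro G H _ _ e h
    exact bdd_of_injective k π e.symm.toMonoidHom e.symm.injective h
  · intro G _ _ _ N M _ _ htop hN hM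
    obtain ⟨-, -, a1, a2⟩ := hN
    obtain ⟨-, -, b1, b2⟩ := hM
    refine ⟨inferInstance, inferInstance, ?_, ?_⟩
    · rw [← htop]
      apply LengthLE.sup
      · have := a1.map N.subtype
        rwa [← MonoidHom.range_eq_map, range_subtype] at this
      · have := b1.map M.subtype
        rwa [← MonoidHom.range_eq_map, range_subtype] at this
    · intro p hp hd
      have e1 := relIndex_mul_relIndex ⊥ M (N ⊔ M) bot_le le_sup_right
      rw [relIndex_bot_left, relIndex_bot_left, relIndex_sup_right] at e1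
      rw [htop, Subgroup.card_top] at e1
      rw [← e1] at hd
      rcases (Nat.Prime.dvd_mul hp).1 hd with h | h
      · exact b2 p hp h
      · exact a2 p hp (h.trans (relIndex_dvd_card _ _))

lemma inter_fischer {X : (G : Type) → [Group G] → Prop} (hX : IsFischerClass X) :
    IsFischerClass (fun G _ => X G ∧ Bdd k π G) where
  isClass :=
    { finite := fun G _ h => h.2.1
      soluble := fun G _ h => h.2.2.1
      iso := fun G H _ _ e h => ⟨hX.isClass.iso G H e h.1,
        bdd_of_injective k π e.symm.toMonoidHom e.symm.injective h.2⟩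
      trivial := fun G _ _ => ⟨hX.isClass.trivial G, by
        refine ⟨inferInstance, inferInstance, ?_, ?_⟩
        · have h : LengthLE k (⊥ : Subgroup G) := by
            induction k with
            | zero => rfl
            | succ k ih => exact ⟨0, by simpa using ih⟩
          rwa [show (⊤ : Subgroup G) = ⊥ from Subsingleton.elim _ _]
        · intro p hp hd
          rw [Nat.card_of_subsingleton (1 : G)] at hd
          exact absurd (Nat.dvd_one.1 hd) hp.one_lt.ne'⟩ }
  n0 := fun G _ _ _ n N hN h htop =>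
    ⟨hX.n0 G n N hN (fun i => (h i).1) htop, bdd_n0 k π G n N hN (fun i => (h i).2) htop⟩
  f := fun H _ _ _ G h hG =>
    ⟨hX.f H G h.1 hG, bdd_of_injective k π G.subtype G.subtype_injective h.2⟩

end Length

/-! ### The examples -/

section Example

open SemidirectProduct

lemma lcs_one_le {G : Type} [Group G] {S T : Subgroup G}
    (h : ∀ x ∈ S, ∀ y ∈ S, ⁅x, y⁆ ∈ T) : S.lowerCentralSeries 1 ≤ T := by
  show ⁅S, S⁆ ≤ T
  rw [commutator_le]
  exact h

lemma length_wr (D : Type) [CommGroup D] : LengthLE 4 (⊤ : Subgroup (Wr D)) := by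
  let ρ : Wr D →* Equiv.Perm (Fin 4) := SemidirectProduct.rightHom
  have h1 : (⊤ : Subgroup (Wr D)).lowerCentralSeries 1 ≤ (Equiv.Perm.sign.ker).comap ρ := by
    apply lcs_one_le
    intro x _ y _
    show Equiv.Perm.sign (ρ ⁅x, y⁆) = 1
    rw [map_commutatorElement, map_commutatorElement]
    exact commutatorElement_eq_one_iff_mul_comm.2 (mul_comm _ _)
  have h2 : ((Equiv.Perm.sign.ker).comap ρ).lowerCentralSeries 1 ≤ V4.comap ρ := by
    apply lcs_one_le
    intro x hx y hy
    have hx' : Equiv.Perm.sign (ρ x) = 1 := hx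
    have hy' : Equiv.Perm.sign (ρ y) = 1 := hy
    show Equiv.Perm.sign (ρ ⁅x, y⁆) = 1 ∧ ρ ⁅x, y⁆ * ρ ⁅x, y⁆ = 1
    rw [map_commutatorElement]
    refine ⟨?_, ?_⟩
    · rw [commutatorElement_def]; simp [hx', hy']
    · rw [commutatorElement_def]; exact derived_two _ _ hx' hy'
  have h3 : (V4.comap ρ).lowerCentralSeries 1 ≤ ρ.ker := by
    apply lcs_one_le
    intro x hx y hy
    show ρ ⁅x, y⁆ = 1
    rw [map_commutatorElement, commutatorElement_def]
    exact derived_three _ _ hx hy
  have h4 : (ρ.ker).lowerCentralSeries 1 ≤ ⊥ := by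
    apply lcs_one_le
    intro x hx y hy
    rw [mem_bot]
    rw [commutatorElement_eq_one_iff_mul_comm]
    have hx' : x.right = 1 := hx
    have hy' : y.right = 1 := hy
    apply SemidirectProduct.ext
    · simp only [SemidirectProduct.mul_left, hx', hy', map_one, MulAut.one_apply]
      exact mul_comm _ _
    · simp [SemidirectProduct.mul_right, hx', hy']
  refine ⟨1, 1, 1, 1, ?_⟩
  apply le_bot_iff.1
  exact (lowerCentralSeries_mono 1 ((lowerCentralSeries_mono 1
    ((lowerCentralSeries_mono 1 h1).trans h2)).trans h3)).trans h4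

variable (A B : Type) [CommGroup A] [CommGroup B]

/-- the kernel of the projection onto `B ≀ S₄` -/
def K1 : Subgroup (Wr (A × B)) := (wrMap (MonoidHom.snd A B)).ker

/-- the kernel of the projection onto `A ≀ S₄` -/
def K2 : Subgroup (Wr (A × B)) := (wrMap (MonoidHom.fst A B)).ker

instance : (K1 A B).Normal := MonoidHom.normal_ker _
instance : (K2 A B).Normal := MonoidHom.normal_ker _

lemma mem_K1 (x : Wr (A × B)) : x ∈ K1 A B ↔ (∀ i, (x.left i).2 = 1) ∧ x.right = 1 := by
  constructor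
  · intro h
    have h' : wrMap (MonoidHom.snd A B) x = 1 := h
    refine ⟨fun i => ?_, ?_⟩
    · exact congrFun (congrArg SemidirectProduct.left h') i
    · exact congrArg SemidirectProduct.right h'
  · rintro ⟨h1, h2⟩
    show wrMap (MonoidHom.snd A B) x = 1
    apply SemidirectProduct.ext
    · funext i; exact h1 i
    · exact h2

lemma mem_K2 (x : Wr (A × B)) : x ∈ K2 A B ↔ (∀ i, (x.left i).1 = 1) ∧ x.right = 1 := by
  constructor
  · intro h
    have h' : wrMap (MonoidHom.fst A B) x = 1 := h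
    refine ⟨fun i => ?_, ?_⟩
    · exact congrFun (congrArg SemidirectProduct.left h') i
    · exact congrArg SemidirectProduct.right h'
  · rintro ⟨h1, h2⟩
    show wrMap (MonoidHom.fst A B) x = 1
    apply SemidirectProduct.ext
    · funext i; exact h1 i
    · exact h2

lemma K1_inf_K2 : K1 A B ⊓ K2 A B = ⊥ := by
  rw [eq_bot_iff]
  rintro x ⟨h1, h2⟩
  have h1' := (mem_K1 A B x).1 h1
  have h2' := (mem_K2 A B x).1 h2
  rw [mem_bot]
  apply SemidirectProduct.ext
  · funext i
    exact Prod.ext (h2'.1 i) (h1'.1 i)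
  · exact h1'.2

lemma K1_sup_K2 : K1 A B ⊔ K2 A B =
    (SemidirectProduct.rightHom : Wr (A × B) →* Equiv.Perm (Fin 4)).ker := by
  apply le_antisymm
  · apply sup_le
    · intro x hx; exact ((mem_K1 A B x).1 hx).2
    · intro x hx; exact ((mem_K2 A B x).1 hx).2
  · intro x hx
    have hx' : x.right = 1 := hx
    have h1 : (SemidirectProduct.inl (fun i => ((x.left i).1, 1)) : Wr (A × B)) ∈ K1 A B := by
      rw [mem_K1]; simp
    have h2 : (SemidirectProduct.inl (fun i => (1, (x.left i).2)) : Wr (A × B)) ∈ K2 A B := by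
      rw [mem_K2]; simp
    have h3 : x = (SemidirectProduct.inl (fun i => ((x.left i).1, 1)) : Wr (A × B)) *
        SemidirectProduct.inl (fun i => (1, (x.left i).2)) := by
      rw [← map_mul]
      apply SemidirectProduct.ext
      · rw [SemidirectProduct.left_inl]
        funext i
        apply Prod.ext
        · simp
        · simp
      · simpa using hx'
    rw [h3]
    exact mul_mem (mem_sup_left h1) (mem_sup_right h2)

lemma K1_pow (q : ℕ) (hq : ∀ a : A, a ^ q = 1) (x : Wr (A × B)) (hx : x ∈ K1 A B) :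
    x ^ q = 1 := by
  obtain ⟨h1, h2⟩ := (mem_K1 A B x).1 hx
  obtain ⟨h3, h4⟩ := pow_left x h2 q
  apply SemidirectProduct.ext
  · rw [h3]
    funext i
    apply Prod.ext
    · exact hq _
    · show (x.left i).2 ^ q = 1
      rw [h1 i, one_pow]
  · exact h4

lemma K2_pow (r : ℕ) (hr : ∀ b : B, b ^ r = 1) (x : Wr (A × B)) (hx : x ∈ K2 A B) :
    x ^ r = 1 := by
  obtain ⟨h1, h2⟩ := (mem_K2 A B x).1 hx
  obtain ⟨h3, h4⟩ := pow_left x h2 r
  apply SemidirectProduct.ext
  · rw [h3]
    funext i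
    apply Prod.ext
    · show (x.left i).1 ^ r = 1
      rw [h1 i, one_pow]
    · exact hr _
  · exact h4

lemma card_wr_cyclic (r : ℕ) [NeZero r] : Nat.card (Wr (Multiplicative (ZMod r))) = r ^ 4 * 24 := by
  rw [wr_card, Nat.card_congr (Multiplicative.toAdd : Multiplicative (ZMod r) ≃ ZMod r),
    Nat.card_zmod]

lemma Opr_le_1 [Finite A] [Finite B] (q : ℕ) (hq : ∀ a : A, a ^ q = 1) (g : A) (hg : g ≠ 1) :
    Opr q (Wr (A × B)) ≤
      (SemidirectProduct.rightHom : Wr (A × B) →* Equiv.Perm (Fin 4)).ker := by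
  apply Opr_le_base q (K1 A B) (K1_pow A B q hq) (g, 1)
  · intro h0
    exact hg (congrArg Prod.fst h0)
  · intro i
    rw [mem_K1]
    refine ⟨fun j => ?_, by simp⟩
    rw [SemidirectProduct.left_inl]
    by_cases hj : j = i
    · subst hj; simp
    · rw [Pi.mulSingle_eq_of_ne hj]; rfl

lemma Opr_le_2 [Finite A] [Finite B] (r : ℕ) (hr : ∀ b : B, b ^ r = 1) (g : B) (hg : g ≠ 1) :
    Opr r (Wr (A × B)) ≤
      (SemidirectProduct.rightHom : Wr (A × B) →* Equiv.Perm (Fin 4)).ker := by
  apply Opr_le_base r (K2 A B) (K2_pow A B r hr) (1, g)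
  · intro h0
    exact hg (congrArg Prod.snd h0)
  · intro i
    rw [mem_K2]
    refine ⟨fun j => ?_, by simp⟩
    rw [SemidirectProduct.left_inl]
    by_cases hj : j = i
    · subst hj; simp
    · rw [Pi.mulSingle_eq_of_ne hj]; rfl

lemma not_cls_gen [Finite A] [Finite B] (q r : ℕ) (hq : ∀ a : A, a ^ q = 1)
    (hr : ∀ b : B, b ^ r = 1) (a : A) (ha : a ≠ 1) (b : B) (hb : b ≠ 1) :
    ¬ Cls q r (Wr (A × B)) := by
  rintro ⟨-, -, h⟩
  have h1 := h.map (SemidirectProduct.rightHom : Wr (A × B) →* Equiv.Perm (Fin 4))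
  rw [map_top_of_surjective _ SemidirectProduct.rightHom_surjective] at h1
  apply not_meta2_S4
  apply h1.mono
  rw [le_bot_iff, Subgroup.map_eq_bot_iff]
  exact sup_le (Opr_le_1 A B q hq a ha) (Opr_le_2 A B r hr b hb)

lemma cyc_pow (q : ℕ) (a : Multiplicative (ZMod q)) : a ^ q = 1 := by
  show Multiplicative.ofAdd (q • (Multiplicative.toAdd a)) = 1
  rw [nsmul_eq_mul, ZMod.natCast_self, zero_mul]; rfl

lemma cyc_ne (q : ℕ) (hq : 1 < q) : Multiplicative.ofAdd (1 : ZMod q) ≠ 1 := by
  have hfq : Fact (1 < q) := ⟨hq⟩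
  intro h1
  exact one_ne_zero (Multiplicative.ofAdd.injective h1 : (1 : ZMod q) = 0)

lemma not_cls (q r : ℕ) (hq1 : 1 < q) (hr1 : 1 < r) [NeZero q] [NeZero r] :
    ¬ Cls q r (Wr (Multiplicative (ZMod q) × Multiplicative (ZMod r))) :=
  not_cls_gen _ _ q r (cyc_pow q) (cyc_pow r) _ (cyc_ne q hq1) _ (cyc_ne r hr1)

/-- the kernel of the projection has the right order -/
lemma card_ker_of_surjective {G H : Type} [Group G] [Group H] [Finite G] (f : G →* H)
    (hf : Function.Surjective f) : Nat.card f.ker * Nat.card H = Nat.card G := by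
  rw [← Nat.card_congr (QuotientGroup.quotientKerEquivOfSurjective f hf).toEquiv, mul_comm]
  exact (Subgroup.card_eq_card_quotient_mul_card_subgroup f.ker).symm

lemma wrMap_surjective {D D' : Type} [Group D] [Group D'] (f : D →* D')
    (hf : Function.Surjective f) : Function.Surjective (wrMap f) := by
  intro x
  choose g hg using hf
  refine ⟨⟨fun i => g (x.left i), x.right⟩, ?_⟩
  apply SemidirectProduct.ext
  · funext i
    exact hg _
  · rfl

end Example

/-- **Main result.**

(1) For all distinct primes `q, r ≥ 5` there is a Fischer class `X` of finite soluble groups which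
is not closed under finite subdirect products; all members of `X` are `{2,3,q,r}`-groups of
nilpotent length at most four. More precisely, there are a finite soluble group `G ∉ X` and normal
subgroups `M₁`, `M₂` of `G`, of orders `q⁴` and `r⁴`, with `M₁ ∩ M₂ = 1`, such that `G / M₁` and
`G / M₂` belong to `X` and `G / M₁M₂` is isomorphic to the symmetric group of degree four.

(2) Conversely, let `X` be any Fischer class of finite soluble groups and let `G` be a finite
soluble group with normal subgroups `M₁`, `M₂` such that `M₁ ∩ M₂ = 1` and `G / M₁`, `G / M₂`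
belong to `X`. If `G / M₁M₂` is metanilpotent, then `G` belongs to `X`. -/
theorem result :
    (∀ q r : ℕ, q.Prime → r.Prime → 5 ≤ q → 5 ≤ r → q ≠ r →
      ∃ X : (G : Type) → [Group G] → Prop, IsFischerClass X ∧
        (∀ (G : Type) [Group G], X G → LengthLE 4 (⊤ : Subgroup G) ∧
          ∀ p : ℕ, p.Prime → p ∣ Nat.card G → p = 2 ∨ p = 3 ∨ p = q ∨ p = r) ∧
        ∃ (G : Type) (_ : Group G) (M₁ M₂ : Subgroup G) (_ : M₁.Normal) (_ : M₂.Normal),
          Finite G ∧ Group.IsSolvable G ∧ M₁ ⊓ M₂ = ⊥ ∧ Nat.card M₁ = q ^ 4 ∧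
          Nat.card M₂ = r ^ 4 ∧ Nonempty (G ⧸ (M₁ ⊔ M₂) ≃* Equiv.Perm (Fin 4)) ∧
          X (G ⧸ M₁) ∧ X (G ⧸ M₂) ∧ ¬ X G) ∧
    (∀ X : (G : Type) → [Group G] → Prop, IsFischerClass X →
      ∀ (G : Type) [Group G] [Finite G] [Group.IsSolvable G] (M₁ M₂ : Subgroup G)
        [M₁.Normal] [M₂.Normal], M₁ ⊓ M₂ = ⊥ → X (G ⧸ M₁) → X (G ⧸ M₂) →
        (∃ N : Subgroup (G ⧸ (M₁ ⊔ M₂)), ∃ _ : N.Normal,
          Group.IsNilpotent N ∧ Group.IsNilpotent ((G ⧸ (M₁ ⊔ M₂)) ⧸ N)) → X G) := by
  refine ⟨?_, fun X hX G _ _ _ M₁ M₂ _ _ hM h1 h2 h3 => positive hX G M₁ M₂ hM h1 h2 h3⟩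
  intro q r hq hr hq5 hr5 hqr
  have : NeZero q := ⟨hq.ne_zero⟩
  have : NeZero r := ⟨hr.ne_zero⟩
  set π : ℕ → Prop := fun p => p = 2 ∨ p = 3 ∨ p = q ∨ p = r with hπ
  set A := Multiplicative (ZMod q) with hA
  set B := Multiplicative (ZMod r) with hB
  have surj1 : Function.Surjective (wrMap (MonoidHom.snd A B)) :=
    wrMap_surjective _ (fun b => ⟨(1, b), rfl⟩)
  have surj2 : Function.Surjective (wrMap (MonoidHom.fst A B)) :=
    wrMap_surjective _ (fun a => ⟨(a, 1), rfl⟩)
  have cardAB : Nat.card (Wr (A × B)) = q ^ 4 * r ^ 4 * 24 := by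
    rw [wr_card, Nat.card_prod, hA, hB,
      Nat.card_congr (Multiplicative.toAdd : Multiplicative (ZMod r) ≃ ZMod r), Nat.card_zmod,
      Nat.card_congr (Multiplicative.toAdd : Multiplicative (ZMod q) ≃ ZMod q), Nat.card_zmod,
      mul_pow]
  -- divisors of `24`
  have d24 : ∀ p : ℕ, p.Prime → p ∣ 24 → p = 2 ∨ p = 3 := by
    intro p hp hd
    have h24 : (24 : ℕ) = 2 ^ 3 * 3 := by norm_num
    rw [h24] at hd
    rcases (Nat.Prime.dvd_mul hp).1 hd with h | h
    · exact Or.inl ((Nat.prime_dvd_prime_iff_eq hp Nat.prime_two).1 (hp.dvd_of_dvd_pow h))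
    · exact Or.inr ((Nat.prime_dvd_prime_iff_eq hp Nat.prime_three).1 h)
  have bA : Bdd 4 π (Wr A) := by
    refine ⟨inferInstance, inferInstance, length_wr A, ?_⟩
    intro p hp hd
    rw [card_wr_cyclic] at hd
    rcases (Nat.Prime.dvd_mul hp).1 hd with h | h
    · exact Or.inr (Or.inr (Or.inl ((Nat.prime_dvd_prime_iff_eq hp hq).1 (hp.dvd_of_dvd_pow h))))
    · rcases d24 p hp h with h | h
      · exact Or.inl h
      · exact Or.inr (Or.inl h)
  have bB : Bdd 4 π (Wr B) := by
    refine ⟨inferInstance, inferInstance, length_wr B, ?_⟩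
    intro p hp hd
    rw [card_wr_cyclic] at hd
    rcases (Nat.Prime.dvd_mul hp).1 hd with h | h
    · exact Or.inr (Or.inr (Or.inr ((Nat.prime_dvd_prime_iff_eq hp hr).1 (hp.dvd_of_dvd_pow h))))
    · rcases d24 p hp h with h | h
      · exact Or.inl h
      · exact Or.inr (Or.inl h)
  have e1 : (Wr (A × B)) ⧸ (K1 A B) ≃* Wr B :=
    QuotientGroup.quotientKerEquivOfSurjective _ surj1
  have e2 : (Wr (A × B)) ⧸ (K2 A B) ≃* Wr A :=
    QuotientGroup.quotientKerEquivOfSurjective _ surj2
  have cop : ∀ a b : ℕ, a.Prime → b.Prime → 5 ≤ a → a ≠ b → (b ^ 4 * 24).Coprime a := by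
    intro a b ha hb ha5 hab
    apply Nat.Coprime.mul_left
    · exact Nat.Coprime.pow_left 4 ((Nat.coprime_primes hb ha).2 (Ne.symm hab))
    · rw [Nat.coprime_comm, Nat.Prime.coprime_iff_not_dvd ha]
      intro hd
      rcases d24 a ha hd with h | h <;> omega
  refine ⟨fun G _ => Cls q r G ∧ Bdd 4 π G, inter_fischer 4 π (cls_fischer q r),
    fun G _ h => ⟨h.2.2.2.1, h.2.2.2.2⟩, Wr (A × B), inferInstance, K1 A B, K2 A B,
    inferInstance, inferInstance, inferInstance, inferInstance, K1_inf_K2 A B, ?_, ?_, ?_,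
    ?_, ?_, fun h => not_cls q r hq.one_lt hr.one_lt h.1⟩
  · have h := card_ker_of_surjective _ surj1
    rw [card_wr_cyclic, cardAB] at h
    have hpos : 0 < r ^ 4 * 24 := by positivity
    apply Nat.eq_of_mul_eq_mul_right hpos
    rw [← mul_assoc (q ^ 4)]
    exact h
  · have h := card_ker_of_surjective _ surj2
    rw [card_wr_cyclic, cardAB] at h
    have hpos : 0 < q ^ 4 * 24 := by positivity
    apply Nat.eq_of_mul_eq_mul_right hpos
    rw [← mul_assoc (r ^ 4), mul_comm (r ^ 4) (q ^ 4)]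
    exact h
  · refine ⟨(QuotientGroup.quotientMulEquivOfEq (K1_sup_K2 A B)).trans
      (QuotientGroup.quotientKerEquivOfSurjective _ SemidirectProduct.rightHom_surjective)⟩
  · refine ⟨cls_of_coprime_left q r _ ?_, bdd_of_injective 4 π e1.toMonoidHom e1.injective bB⟩
    rw [Nat.card_congr e1.toEquiv, card_wr_cyclic]
    exact cop q r hq hr hq5 hqr
  · refine ⟨cls_of_coprime_right q r _ ?_, bdd_of_injective 4 π e2.toMonoidHom e2.injective bA⟩
    rw [Nat.card_congr e2.toEquiv, card_wr_cyclic]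
    exact cop r q hr hq hr5 hqr.symm

end Pool.Agent.Results.MP_36bee3_al.SharpAmalgam
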